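import Mathlib

set_option autoImplicit false

namespace Pool.Agent.Results.MP_682377_al.WeakTwoZero

open Polynomial CategoryTheory

noncomputable section

/-- `NPresented R n M`: there is an exact sequence `F_n → ⋯ → F_0 → M → 0` with all `F_i` finitely
generated free. For `n = 0` this says that `M` is finitely generated; an `(n+1)`-presented module
is a quotient of a finitely generated free module by an `n`-presented submodule. -/
def NPresented (R : Type) [CommRing R] :
    ℕ → (M : Type) → [AddCommGroup M] → [Module R M] → Prop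
  | 0, M, _, _ => Module.Finite R M
  | n + 1, M, _, _ => ∃ (k : ℕ) (f : (Fin k → R) →ₗ[R] M), Function.Surjective f ∧
      NPresented R n (LinearMap.ker f)

/-- `R` is a weak `(n, d)`-ring in the sense of Mahdou: every `n`-presented cyclic module has
projective dimension at most `d`. -/
def WeakMahdou (R : Type) [CommRing R] (n d : ℕ) : Prop :=
  ∀ I : Ideal R, NPresented R n (R ⧸ I) → HasProjectiveDimensionLE (ModuleCat.of R (R ⧸ I)) d

/-- `FGRes R m M`: there is an exact sequence `0 → P_m → ⋯ → P_0 → M → 0` with all `P_i` finitely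
generated projective. -/
def FGRes (R : Type) [CommRing R] :
    ℕ → (M : Type) → [AddCommGroup M] → [Module R M] → Prop
  | 0, M, _, _ => Module.Finite R M ∧ Module.Projective R M
  | n + 1, M, _, _ => ∃ (P : Type) (_ : AddCommGroup P) (_ : Module R P) (f : P →ₗ[R] M),
      Module.Finite R P ∧ Module.Projective R P ∧ Function.Surjective f ∧
      FGRes R n (LinearMap.ker f)

/-- `fPD(R) ≤ d` for the small finitistic dimension: every module with a finite resolution by
finitely generated projective modules has projective dimension at most `d`. -/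
def SmallFinitisticLE (R : Type) [CommRing R] (d : ℕ) : Prop :=
  ∀ (m : ℕ) (M : Type) [AddCommGroup M] [Module R M], FGRes R m M →
    HasProjectiveDimensionLE (ModuleCat.of R M) d

/-! ### The trivial extension of a ring by a module -/

/-- The trivial extension of `A` by `E`. -/
@[ext] structure T (A E : Type) where
  a : A
  e : E

namespace T

section ring

variable {A E : Type} [CommRing A] [AddCommGroup E] [Module A E]

instance : Zero (T A E) := ⟨⟨0, 0⟩⟩
instance : One (T A E) := ⟨⟨1, 0⟩⟩
instance : Add (T A E) := ⟨fun x y => ⟨x.a + y.a, x.e + y.e⟩⟩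
instance : Neg (T A E) := ⟨fun x => ⟨-x.a, -x.e⟩⟩
instance : Sub (T A E) := ⟨fun x y => ⟨x.a - y.a, x.e - y.e⟩⟩
instance : Mul (T A E) := ⟨fun x y => ⟨x.a * y.a, x.a • y.e + y.a • x.e⟩⟩

@[simp] theorem zero_a : (0 : T A E).a = 0 := rfl
@[simp] theorem zero_e : (0 : T A E).e = 0 := rfl
@[simp] theorem one_a : (1 : T A E).a = 1 := rfl
@[simp] theorem one_e : (1 : T A E).e = 0 := rfl
@[simp] theorem add_a (x y : T A E) : (x + y).a = x.a + y.a := rfl
@[simp] theorem add_e (x y : T A E) : (x + y).e = x.e + y.e := rfl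
@[simp] theorem neg_a (x : T A E) : (-x).a = -x.a := rfl
@[simp] theorem neg_e (x : T A E) : (-x).e = -x.e := rfl
@[simp] theorem sub_a (x y : T A E) : (x - y).a = x.a - y.a := rfl
@[simp] theorem sub_e (x y : T A E) : (x - y).e = x.e - y.e := rfl
@[simp] theorem mul_a (x y : T A E) : (x * y).a = x.a * y.a := rfl
@[simp] theorem mul_e (x y : T A E) : (x * y).e = x.a • y.e + y.a • x.e := rfl

instance : CommRing (T A E) where
  add_assoc x y z := by ext1 <;> simp [add_assoc]
  zero_add x := by ext1 <;> simp
  add_zero x := by ext1 <;> simp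
  add_comm x y := by ext1 <;> simp [add_comm]
  left_distrib x y z := by
    ext1
    · simp [mul_add]
    · simp only [mul_e, add_e, add_a, smul_add, add_smul]; abel
  right_distrib x y z := by
    ext1
    · simp [add_mul]
    · simp only [mul_e, add_e, add_a, smul_add, add_smul]; abel
  zero_mul x := by ext1 <;> simp
  mul_zero x := by ext1 <;> simp
  mul_assoc x y z := by
    ext1
    · simp [mul_assoc]
    · simp only [mul_e, mul_a, smul_add, smul_smul]
      rw [mul_comm z.a x.a, mul_comm z.a y.a]; abel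
  one_mul x := by ext1 <;> simp
  mul_one x := by ext1 <;> simp
  mul_comm x y := by
    ext1
    · simp [mul_comm]
    · simp [add_comm]
  neg_add_cancel x := by ext1 <;> simp
  sub_eq_add_neg x y := by ext1 <;> simp [sub_eq_add_neg]
  nsmul := nsmulRec
  zsmul := zsmulRec

/-- projection to the base ring -/
def pa (A E : Type) [CommRing A] [AddCommGroup E] [Module A E] : T A E →+* A where
  toFun := T.a
  map_one' := rfl
  map_mul' _ _ := rfl
  map_zero' := rfl
  map_add' _ _ := rfl

/-- the second projection, additive -/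
def pe (A E : Type) [CommRing A] [AddCommGroup E] [Module A E] : T A E →+ E where
  toFun := T.e
  map_zero' := rfl
  map_add' _ _ := rfl

theorem sum_a {ι : Type} (s : Finset ι) (f : ι → T A E) : (∑ i ∈ s, f i).a = ∑ i ∈ s, (f i).a :=
  map_sum (pa A E) f s

theorem sum_e {ι : Type} (s : Finset ι) (f : ι → T A E) : (∑ i ∈ s, f i).e = ∑ i ∈ s, (f i).e :=
  map_sum (pe A E) f s

end ring

section main

variable {A K Q : Type} [CommRing A] [Field K] [Algebra A K] [AddCommGroup Q] [Module A Q]

/-- infinitely many copies of `A` and of `Q` -/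
abbrev En (A Q : Type) [CommRing A] [AddCommGroup Q] : Type := (ℕ →₀ A) × (ℕ →₀ Q)

theorem mem_rel {m : ℕ} (g x : Fin m → T A (En A Q)) :
    x ∈ LinearMap.ker (Fintype.linearCombination (T A (En A Q)) g) ↔ ∑ i, x i * g i = 0 := by
  rw [LinearMap.mem_ker, Fintype.linearCombination_apply]
  rfl

/-- Relations among the generators, seen at a copy `j` not involved in the generators of the
relation module. -/
theorem far (q : K →ₗ[A] Q) (hq : Function.Surjective q) {m : ℕ} (g : Fin m → T A (En A Q))
    (hfg : (LinearMap.ker (Fintype.linearCombination (T A (En A Q)) g)).FG) :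
    ∃ j : ℕ, ∀ x : Fin m → T A (En A Q), ∑ i, x i * g i = 0 →
      (∃ s : Fin m → K, (∀ i, (x i).e.2 j = q (s i)) ∧ ∑ i, (g i).a • s i = 0) ∧
      ((∀ i, (g i).a = 0) → ∑ i, (x i).e.1 j • (g i).e = 0) := by
  classical
  obtain ⟨S, hS⟩ := hfg
  let U : Finset ℕ := S.biUnion fun x => Finset.univ.biUnion fun i =>
    (x i).e.1.support ∪ (x i).e.2.support
  obtain ⟨j, hj⟩ := Infinite.exists_notMem_finset U
  refine ⟨j, ?_⟩
  intro x hx
  have hrel : ∀ y ∈ Submodule.span (T A (En A Q)) (S : Set (Fin m → T A (En A Q))),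
      ∑ i, y i * g i = 0 := by
    intro y hy
    rw [← mem_rel, ← hS]; exact hy
  rw [← mem_rel, ← hS] at hx
  induction hx using Submodule.span_induction with
  | mem x hx =>
    have h1 : ∀ i, (x i).e.1 j = 0 ∧ (x i).e.2 j = 0 := by
      intro i
      have h : j ∉ (x i).e.1.support ∪ (x i).e.2.support := by
        intro h
        apply hj
        simp only [U, Finset.mem_biUnion, Finset.mem_univ, true_and]
        exact ⟨x, hx, i, h⟩
      rw [Finset.notMem_union, Finsupp.notMem_support_iff, Finsupp.notMem_support_iff] at h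
      exact h
    refine ⟨⟨0, ?_, by simp⟩, ?_⟩
    · intro i; rw [(h1 i).2]; simp
    · intro _
      apply Finset.sum_eq_zero
      intro i _
      rw [(h1 i).1, zero_smul]
  | zero => exact ⟨⟨0, by simp, by simp⟩, by simp⟩
  | add x y _ _ hx hy =>
    obtain ⟨⟨s, hs1, hs2⟩, hs3⟩ := hx
    obtain ⟨⟨t, ht1, ht2⟩, ht3⟩ := hy
    refine ⟨⟨s + t, ?_, ?_⟩, ?_⟩
    · intro i
      show (x i).e.2 j + (y i).e.2 j = q (s i + t i)
      rw [hs1, ht1, map_add]
    · simp only [Pi.add_apply, smul_add, Finset.sum_add_distrib, hs2, ht2, add_zero]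
    · intro h
      have : ∀ i, ((x + y) i).e.1 j • (g i).e = (x i).e.1 j • (g i).e + (y i).e.1 j • (g i).e := by
        intro i
        rw [← add_smul]
        rfl
      rw [Finset.sum_congr rfl fun i _ => this i, Finset.sum_add_distrib, hs3 h, ht3 h, add_zero]
  | smul r x hx ih =>
    obtain ⟨⟨s, hs1, hs2⟩, hs3⟩ := ih
    obtain ⟨ε, hε⟩ := hq (r.e.2 j)
    have hx0 := hrel x hx
    have hxa : ∑ i, (x i).a * (g i).a = 0 := by
      have := congrArg T.a hx0
      rw [sum_a] at this
      simpa using this
    refine ⟨⟨fun i => r.a • s i + (x i).a • ε, ?_, ?_⟩, ?_⟩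
    · intro i
      show r.a • (x i).e.2 j + (x i).a • r.e.2 j = _
      rw [hs1, ← hε, map_add, map_smul, map_smul]
    · have : ∀ i, (g i).a • (r.a • s i + (x i).a • ε) =
          r.a • ((g i).a • s i) + ((x i).a * (g i).a) • ε := fun i => by
        rw [smul_add, smul_smul, smul_smul, smul_smul, mul_comm (g i).a r.a,
          mul_comm (g i).a (x i).a]
      rw [Finset.sum_congr rfl fun i _ => this i, Finset.sum_add_distrib, ← Finset.smul_sum, hs2,
        ← Finset.sum_smul, hxa, smul_zero, zero_smul, add_zero]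
    · intro h
      have hxe : ∑ i, (x i).a • (g i).e = 0 := by
        have := congrArg T.e hx0
        rw [sum_e] at this
        simpa [h] using this
      have : ∀ i, ((r • x) i).e.1 j • (g i).e =
          r.a • ((x i).e.1 j • (g i).e) + r.e.1 j • ((x i).a • (g i).e) := fun i => by
        show (r.a * (x i).e.1 j + (x i).a * r.e.1 j) • (g i).e = _
        rw [add_smul, mul_smul, mul_comm (x i).a, mul_smul]
      rw [Finset.sum_congr rfl fun i _ => this i, Finset.sum_add_distrib, ← Finset.smul_sum,
        ← Finset.smul_sum, hs3 h, hxe, smul_zero, smul_zero, add_zero]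

/-- A finitely generated ideal with finitely generated relation module is `0` or everything. -/
theorem trivial_ideal [FaithfulSMul A K] (q : K →ₗ[A] Q) (hq : Function.Surjective q)
    (hker : ∀ x, q x = 0 ↔ ∃ c : A, algebraMap A K c = x) {m : ℕ} (g : Fin m → T A (En A Q))
    (hfg : (LinearMap.ker (Fintype.linearCombination (T A (En A Q)) g)).FG) :
    Ideal.span (Set.range g) = ⊥ ∨ Ideal.span (Set.range g) = ⊤ := by
  classical
  obtain ⟨j, hj⟩ := far q hq g hfg
  by_cases ha : ∀ i, (g i).a = 0
  · -- all generators lie in `E`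
    left
    rw [Ideal.span_eq_bot]
    rintro _ ⟨i₀, rfl⟩
    have he : (g i₀).e = 0 := by
      let x : Fin m → T A (En A Q) := Pi.single i₀ ⟨0, (Finsupp.single j 1, 0)⟩
      have hx : ∑ i, x i * g i = 0 := by
        apply Finset.sum_eq_zero
        intro i _
        by_cases h : i = i₀
        · subst h
          simp only [x, Pi.single_eq_same]
          ext1 <;> simp [ha]
        · simp [x, h]
      have h3 := (hj x hx).2 ha
      rw [Finset.sum_eq_single i₀] at h3
      · simpa [x] using h3
      · intro i _ hi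
        simp [x, hi]
      · simp
    exact T.ext (ha i₀) he
  · right
    push Not at ha
    obtain ⟨i₀, hi₀⟩ := ha
    have hinj : Function.Injective (algebraMap A K) := FaithfulSMul.algebraMap_injective A K
    have hne : algebraMap A K (g i₀).a ≠ 0 := fun h => hi₀ (hinj (by rw [h, map_zero]))
    let x : Fin m → T A (En A Q) := Pi.single i₀
      ⟨0, (0, Finsupp.single j (q (algebraMap A K (g i₀).a)⁻¹))⟩
    have hx : ∑ i, x i * g i = 0 := by
      apply Finset.sum_eq_zero
      intro i _
      by_cases h : i = i₀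
      · subst h
        simp only [x, Pi.single_eq_same]
        have h1 : (g i).a • q (algebraMap A K (g i).a)⁻¹ = 0 := by
          rw [← map_smul, Algebra.smul_def, mul_inv_cancel₀ hne]
          exact (hker 1).2 ⟨1, map_one _⟩
        ext1 <;> simp [h1]
      · simp [x, h]
    obtain ⟨s, hs1, hs2⟩ := (hj x hx).1
    -- the element `1` lies in the ideal generated by the first components
    have h5 : ∀ i, ∃ t : A, algebraMap A K t =
        (Pi.single i₀ (algebraMap A K (g i₀).a)⁻¹ : Fin m → K) i - s i := by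
      intro i
      rw [← hker, map_sub, ← hs1]
      by_cases h : i = i₀
      · subst h; simp [x]
      · simp [x, h]
    choose t ht using h5
    have h6 : ∑ i, t i * (g i).a = 1 := by
      apply hinj
      rw [map_sum, map_one]
      have h7 : ∀ i, algebraMap A K (t i * (g i).a) =
          (Pi.single i₀ 1 : Fin m → K) i - (g i).a • s i := by
        intro i
        rw [map_mul, ht, sub_mul, Algebra.smul_def, mul_comm (s i)]
        by_cases h : i = i₀
        · subst h; simp [inv_mul_cancel₀ hne]
        · simp [h]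
      rw [Finset.sum_congr rfl fun i _ => h7 i, Finset.sum_sub_distrib, hs2, sub_zero,
        Finset.sum_pi_single']
      simp
    set v : T A (En A Q) := ∑ i, (⟨t i, 0⟩ : T A (En A Q)) * g i with hv
    have hvI : v ∈ Ideal.span (Set.range g) :=
      Ideal.sum_mem _ fun i _ => Ideal.mul_mem_left _ _ (Ideal.subset_span ⟨i, rfl⟩)
    have hva : v.a = 1 := by
      rw [hv, sum_a, ← h6]
      rfl
    apply Ideal.eq_top_of_isUnit_mem _ hvI
    refine IsUnit.of_mul_eq_one (⟨1, -v.e⟩ : T A (En A Q)) ?_
    ext1
    · simp [hva]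
    · simp [hva]

end main

end T

/-! ### Presentations -/

/-- If a cyclic module `R / I` is `2`-presented then `I` is finitely presented. -/
theorem ideal_finitePresentation {R : Type} [CommRing R] (I : Ideal R)
    (h : NPresented R 2 (R ⧸ I)) : Module.FinitePresentation R I := by
  obtain ⟨k, f, hf, k', f', hf', hfin⟩ := h
  have hfin' : (LinearMap.ker f').FG := Module.Finite.iff_fg.1 hfin
  have h1 : Module.FinitePresentation R (LinearMap.ker f) :=
    Module.finitePresentation_of_surjective f' hf' hfin'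
  -- the fibre product
  let Z : Submodule R ((Fin k → R) × R) :=
    LinearMap.ker (f ∘ₗ LinearMap.fst R (Fin k → R) R - I.mkQ ∘ₗ LinearMap.snd R (Fin k → R) R)
  have hZ : ∀ z : (Fin k → R) × R, z ∈ Z ↔ f z.1 = I.mkQ z.2 := by
    intro z
    rw [LinearMap.mem_ker, LinearMap.sub_apply, sub_eq_zero]
    rfl
  let p₂ : Z →ₗ[R] R := LinearMap.snd R (Fin k → R) R ∘ₗ Z.subtype
  let p₁ : Z →ₗ[R] (Fin k → R) := LinearMap.fst R (Fin k → R) R ∘ₗ Z.subtype
  have hp₂ : Function.Surjective p₂ := by
    intro r
    obtain ⟨y, hy⟩ := hf (I.mkQ r)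
    exact ⟨⟨(y, r), (hZ _).2 hy⟩, rfl⟩
  have hp₁ : Function.Surjective p₁ := by
    intro y
    obtain ⟨r, hr⟩ := I.mkQ_surjective (f y)
    exact ⟨⟨(y, r), (hZ _).2 hr.symm⟩, rfl⟩
  -- the kernel of the second projection
  let e : LinearMap.ker f ≃ₗ[R] LinearMap.ker p₂ :=
    { toFun := fun y => ⟨⟨(y.1, 0), (hZ _).2 (by
          show f y.1 = I.mkQ 0
          rw [map_zero]; exact y.2)⟩, rfl⟩
      map_add' := fun y z => by
        apply Subtype.ext; apply Subtype.ext
        show ((y.1 + z.1, 0) : (Fin k → R) × R) = (y.1, 0) + (z.1, 0)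
        simp
      map_smul' := fun r y => by
        apply Subtype.ext; apply Subtype.ext
        show ((r • y.1, 0) : (Fin k → R) × R) = r • (y.1, 0)
        simp
      invFun := fun z => ⟨z.1.1.1, by
        have h2 := (hZ _).1 z.1.2
        have h3 : z.1.1.2 = 0 := z.2
        rw [LinearMap.mem_ker, h2, h3, map_zero]⟩
      left_inv := fun y => rfl
      right_inv := fun z => by
        apply Subtype.ext; apply Subtype.ext
        have h3 : z.1.1.2 = 0 := z.2
        exact Prod.ext rfl h3.symm }
  have h2 : Module.FinitePresentation R (LinearMap.ker p₂) := by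
    have := h1
    exact Module.FinitePresentation.of_equiv (R := R) (M := LinearMap.ker f)
      (N := LinearMap.ker p₂) e
  have h3 : Module.FinitePresentation R Z := Module.finitePresentation_of_ker p₂ hp₂
  let i : I →ₗ[R] Z :=
    { toFun := fun x => ⟨(0, x.1), (hZ _).2 (by
          show f 0 = I.mkQ x.1
          rw [map_zero]
          exact ((Submodule.Quotient.mk_eq_zero I).2 x.2).symm)⟩
      map_add' := fun y z => by
        apply Subtype.ext
        show ((0, y.1 + z.1) : (Fin k → R) × R) = (0, y.1) + (0, z.1)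
        simp
      map_smul' := fun r y => by
        apply Subtype.ext
        show ((0, r • y.1) : (Fin k → R) × R) = r • (0, y.1)
        simp }
  refine Module.finitePresentation_of_projective_of_exact i p₁ ?_ hp₁ ?_
  · intro x y hxy
    have := congrArg (fun z => z.1.2) hxy
    exact Subtype.ext this
  · intro z
    constructor
    · intro hz
      have hz' : z.1.1 = 0 := hz
      have h4 := (hZ _).1 z.2
      rw [hz', map_zero] at h4
      refine ⟨⟨z.1.2, (Submodule.Quotient.mk_eq_zero I).1 h4.symm⟩, ?_⟩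
      apply Subtype.ext
      exact Prod.ext hz'.symm rfl
    · rintro ⟨x, rfl⟩
      rfl

theorem nPresented_succ {R : Type} [CommRing R] (n : ℕ) : ∀ (M : Type) [AddCommGroup M]
    [Module R M], NPresented R (n + 1) M → NPresented R n M := by
  induction n with
  | zero =>
    intro M _ _ h
    obtain ⟨k, f, hf, -⟩ := h
    exact Module.Finite.of_surjective f hf
  | succ n ih =>
    intro M _ _ h
    obtain ⟨k, f, hf, h⟩ := h
    exact ⟨k, f, hf, ih _ h⟩

theorem nPresented_two {R : Type} [CommRing R] (n : ℕ) (hn : 2 ≤ n) (M : Type) [AddCommGroup M]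
    [Module R M] (h : NPresented R n M) : NPresented R 2 M := by
  induction n, hn using Nat.le_induction with
  | base => exact h
  | succ n _ ih => exact ih (nPresented_succ n M h)

/-! ### The example -/

/-- The fraction field of `ℤ[X]` modulo `ℤ[X]`. -/
abbrev Q₀ : Type :=
  FractionRing ℤ[X] ⧸ LinearMap.range (Algebra.linearMap ℤ[X] (FractionRing ℤ[X]))

/-- The example: the trivial extension of `A = ℤ[X]` by the direct sum of infinitely many copies
of `A` and infinitely many copies of `Frac(A) / A`. -/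
abbrev R₀ : Type := T ℤ[X] (T.En ℤ[X] Q₀)

theorem weak : WeakMahdou R₀ 2 0 := by
  intro I hI
  have h1 := ideal_finitePresentation I hI
  obtain ⟨m, g, hg⟩ := Submodule.fg_iff_exists_fin_generating_family.1
    (Module.Finite.iff_fg.1 (inferInstance : Module.Finite R₀ I))
  -- the surjection given by the generators
  have hmem : ∀ i, g i ∈ I := fun i => by rw [← hg]; exact Submodule.subset_span ⟨i, rfl⟩
  let φ : (Fin m → R₀) →ₗ[R₀] I := Fintype.linearCombination R₀ fun i => (⟨g i, hmem i⟩ : I)
  have hφ : ∀ x, (φ x : R₀) = ∑ i, x i * g i := by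
    intro x
    simp only [φ, Fintype.linearCombination_apply, Submodule.coe_sum, Submodule.coe_smul]
    rfl
  have hsurj : Function.Surjective φ := by
    intro y
    have hy : (y : R₀) ∈ Ideal.span (Set.range g) := by
      have : (y : R₀) ∈ Submodule.span R₀ (Set.range g) := by rw [hg]; exact y.2
      exact this
    rw [Ideal.mem_span_range_iff_exists_fun] at hy
    obtain ⟨c, hc⟩ := hy
    exact ⟨c, Subtype.ext (by rw [hφ, hc])⟩
  have hfg := Module.FinitePresentation.fg_ker φ hsurj
  have hker : LinearMap.ker φ = LinearMap.ker (Fintype.linearCombination R₀ g) := by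
    ext x
    rw [T.mem_rel, LinearMap.mem_ker, ← hφ]
    constructor
    · intro h; rw [h]; rfl
    · intro h; exact Subtype.ext h
  rw [hker] at hfg
  have h2 := T.trivial_ideal (K := FractionRing ℤ[X])
    (LinearMap.range (Algebra.linearMap ℤ[X] (FractionRing ℤ[X]))).mkQ
    (Submodule.mkQ_surjective _) (fun x => by
      rw [Submodule.mkQ_apply, Submodule.Quotient.mk_eq_zero]
      rfl) g hfg
  have h3 : Ideal.span (Set.range g) = I := hg
  rw [h3] at h2
  have h4 : Module.Projective R₀ (R₀ ⧸ I) := by
    rcases h2 with h2 | h2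
    · exact Module.Projective.of_equiv (Submodule.quotEquivOfEqBot I h2).symm
    · have : Subsingleton (R₀ ⧸ I) := Ideal.Quotient.subsingleton_iff.2 h2
      infer_instance
  have h5 : Projective (ModuleCat.of R₀ (R₀ ⧸ I)) :=
    (IsProjective.iff_projective (R₀ ⧸ I)).1 h4
  exact (projective_iff_hasProjectiveDimensionLE_zero _).1 h5

/-- the elements `2` and `X` of the example -/
def v : Fin 2 → R₀ := ![⟨2, 0⟩, ⟨X, 0⟩]

theorem dense_elements {x : FractionRing ℤ[X]}
    (h2 : ∃ c : ℤ[X], algebraMap ℤ[X] (FractionRing ℤ[X]) c = (2 : ℤ[X]) • x)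
    (hX : ∃ c : ℤ[X], algebraMap ℤ[X] (FractionRing ℤ[X]) c = (X : ℤ[X]) • x) :
    ∃ c : ℤ[X], algebraMap ℤ[X] (FractionRing ℤ[X]) c = x := by
  obtain ⟨a, ha⟩ := h2
  obtain ⟨b, hb⟩ := hX
  have hinj : Function.Injective (algebraMap ℤ[X] (FractionRing ℤ[X])) :=
    IsFractionRing.injective ℤ[X] (FractionRing ℤ[X])
  rw [Algebra.smul_def] at ha hb
  -- `X a = 2 b`
  have h1 : X * a = 2 * b := by
    apply hinj
    rw [map_mul, map_mul, ha, hb]
    ring
  have h2 : (X : ℤ[X]) ∣ 2 * b := ⟨a, h1.symm⟩
  have h3 : (X : ℤ[X]) ∣ b := by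
    rcases prime_X.dvd_or_dvd h2 with h | h
    · rw [X_dvd_iff] at h
      simp at h
    · exact h
  obtain ⟨c, rfl⟩ := h3
  refine ⟨c, ?_⟩
  have hX : algebraMap ℤ[X] (FractionRing ℤ[X]) X ≠ 0 := by
    intro h
    exact X_ne_zero (hinj (by rw [h, map_zero]))
  apply mul_left_cancel₀ hX
  rw [← hb, map_mul]

theorem v_injective (r : R₀) (h : r • v = 0) : r = 0 := by
  have h0 : r * ⟨2, 0⟩ = 0 := congrFun h 0
  have h1 : r * ⟨X, 0⟩ = 0 := congrFun h 1
  have ha : r.a = 0 := by
    have := congrArg T.a h0
    have h2 : r.a * 2 = 0 := this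
    rcases mul_eq_zero.1 h2 with h3 | h3
    · exact h3
    · exact absurd h3 two_ne_zero
  have he0 : (2 : ℤ[X]) • r.e = 0 := by
    have := congrArg T.e h0
    simpa using this
  have he1 : (X : ℤ[X]) • r.e = 0 := by
    have := congrArg T.e h1
    simpa using this
  have hp : r.e.1 = 0 := by
    ext1 j
    have h2 : (2 : ℤ[X]) * r.e.1 j = 0 := by
      have := congrArg (fun z : T.En ℤ[X] Q₀ => z.1 j) he0
      simpa using this
    rcases mul_eq_zero.1 h2 with h3 | h3
    · exact absurd h3 two_ne_zero
    · exact h3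
  have hq : r.e.2 = 0 := by
    ext1 j
    obtain ⟨x, hx⟩ := Submodule.mkQ_surjective _ (r.e.2 j)
    have h2 : (2 : ℤ[X]) • r.e.2 j = 0 := congrArg (fun z : T.En ℤ[X] Q₀ => z.2 j) he0
    have h3 : (X : ℤ[X]) • r.e.2 j = 0 := congrArg (fun z : T.En ℤ[X] Q₀ => z.2 j) he1
    rw [← hx, ← map_smul, Submodule.mkQ_apply, Submodule.Quotient.mk_eq_zero] at h2 h3
    have h4 := dense_elements h2 h3
    rw [← hx, Submodule.mkQ_apply]
    exact (Submodule.Quotient.mk_eq_zero _).2 h4
  exact T.ext ha (Prod.ext hp hq)

theorem not_small : ¬ SmallFinitisticLE R₀ 0 := by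
  intro H
  let N : Submodule R₀ (Fin 2 → R₀) := Submodule.span R₀ {v}
  let e : R₀ ≃ₗ[R₀] N := LinearEquiv.ofBijective
    (LinearMap.codRestrict N (LinearMap.toSpanSingleton R₀ (Fin 2 → R₀) v) (fun r =>
      Submodule.smul_mem _ r (Submodule.mem_span_singleton_self v))) (by
    constructor
    · rw [injective_iff_map_eq_zero]
      intro r hr
      exact v_injective r (congrArg Subtype.val hr)
    · rintro ⟨y, hy⟩
      obtain ⟨r, hr⟩ := Submodule.mem_span_singleton.1 hy
      exact ⟨r, Subtype.ext hr⟩)
  have hN : FGRes R₀ 1 ((Fin 2 → R₀) ⧸ N) := by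
    refine ⟨Fin 2 → R₀, inferInstance, inferInstance, N.mkQ, inferInstance, inferInstance,
      N.mkQ_surjective, ?_⟩
    rw [Submodule.ker_mkQ]
    exact ⟨Module.Finite.equiv e, Module.Projective.of_equiv e⟩
  have h1 := H 1 _ hN
  have h2 : Module.Projective R₀ ((Fin 2 → R₀) ⧸ N) :=
    (IsProjective.iff_projective _).2 ((projective_iff_hasProjectiveDimensionLE_zero _).2 h1)
  obtain ⟨s, hs⟩ := Module.projective_lifting_property N.mkQ LinearMap.id N.mkQ_surjective
  -- the retraction onto `N`
  have hret : ∀ y, y - s (N.mkQ y) ∈ N := by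
    intro y
    rw [← Submodule.Quotient.mk_eq_zero N, ← Submodule.mkQ_apply, map_sub]
    have := LinearMap.congr_fun hs (N.mkQ y)
    simp only [LinearMap.comp_apply, LinearMap.id_apply] at this
    rw [this, sub_self]
  let ρ : (Fin 2 → R₀) →ₗ[R₀] R₀ := e.symm.toLinearMap ∘ₗ
    LinearMap.codRestrict N (LinearMap.id - s ∘ₗ N.mkQ) hret
  have hρ : ρ v = 1 := by
    show e.symm _ = 1
    rw [LinearEquiv.symm_apply_eq]
    apply Subtype.ext
    show v - s (N.mkQ v) = (1 : R₀) • v
    have hv : N.mkQ v = 0 :=
      (Submodule.Quotient.mk_eq_zero N).2 (Submodule.mem_span_singleton_self v)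
    rw [hv, map_zero, sub_zero, one_smul]
  -- contradiction modulo `(2, X)`
  have h3 : ρ v = ⟨2, 0⟩ * ρ (Pi.single 0 1) + ⟨X, 0⟩ * ρ (Pi.single 1 1) := by
    have hv : v = (⟨2, 0⟩ : R₀) • (Pi.single 0 1 : Fin 2 → R₀) +
        (⟨X, 0⟩ : R₀) • (Pi.single 1 1 : Fin 2 → R₀) := by
      funext i
      fin_cases i <;> simp [v]
    conv_lhs => rw [hv, map_add, map_smul, map_smul]
    rfl
  rw [hρ] at h3
  have h4 := congrArg T.a h3
  simp only [T.one_a, T.add_a, T.mul_a] at h4
  have h5 := congrArg (fun z : ℤ[X] => z.coeff 0) h4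
  simp only [coeff_one_zero, coeff_add, mul_coeff_zero, coeff_X_zero, zero_mul, add_zero] at h5
  have h6 : (2 : ℤ[X]).coeff 0 = 2 := by
    rw [show (2 : ℤ[X]) = C 2 by simp, coeff_C_zero]
  rw [h6] at h5
  omega

/-- There is a commutative ring that is a weak `(n, 0)`-ring in the sense of Mahdou for every
`n ≥ 2` but whose small finitistic dimension is not `≤ 0`. -/
theorem result : ∃ (R : Type) (_ : CommRing R),
    (∀ n : ℕ, 2 ≤ n → WeakMahdou R n 0) ∧ ¬ SmallFinitisticLE R 0 :=
  ⟨R₀, inferInstance, fun n hn I hI => weak I (nPresented_two n hn _ hI), not_small⟩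

end

end Pool.Agent.Results.MP_682377_al.WeakTwoZero
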